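import Pool.Agent.ZPT.AG
import Pool.Agent.ZPE.Defs
import Pool.Agent.ZR.Defs
import Pool.Agent.ZR.SysDefs
import Pool.Agent.ZPE.A.GRO

/-!
# ZR, T3+, the chain block (helper49): one block, the three cores, the statements of the chain

The points are `p_k = (t_k, P_k)`, `k ∈ Q`, `U` an ultrafilter on `Q`.
`K_lam := FHt U lam` is the field of ALL germs of height `o(lam)` (no bound for the degree).

PLAN.  `R := er` relations which hold almost everywhere.  `μ : Fin n' → (N → ℤ)` independent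
modulo `er`, `n' = |N| - rank er`.  The family `p.comb μ` has no relations.  Growth classes
(`SYSF`): a basis adapted to blocks; block `0` is the class of `t`.  The relation spaces at `k`,
rescaled by the square roots of the scales, have a limit `W` (frames), all `w ∈ W` are approximate
relations (`RELF`), `dim W = rank rel(p_k) - rank er ≥ n' - 1`.  `W_j := W ∩ ℝ^(block j)` has
`dim W_j ≥ n_j - 1` and `dim W ≤ dim W_0 + ∑_(j>0) n_j` (`LINB`).  Cores: `n_j ≤ T_j` for the
nonempty blocks `j > 0`, `dim W_0 ≤ T_0` (type B), `dim W_0 + 1 ≤ T_0` (type U).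
`T_0 + ∑_(j>0) T_j ≤ d` (`TTF`).
-/

set_option autoImplicit false

open scoped BigOperators
open Filter Topology Module

namespace Pool.Agent.ZR

open Pool.Agent.ZPT Pool.Agent.ZPE

/-- the germs of height `o(lam)`, without a bound for the degree -/
def FHt {Q : Type} (U : Ultrafilter Q) (lam : Q → ℝ) : Set (LL U) :=
  {z | ∃ f : Q → Qb, z = (f : LL U) ∧ Tendsto (fun k => hQ (f k) / lam k) U (𝓝 0)}

/-- The input of the cores: a family of points with one scale. -/
structure BlkF (N : Type) [Fintype N] {Q : Type} (U : Ultrafilter Q) extends PreF N Q where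
  /-- the scale -/
  lam : Q → ℝ
  one_le : ∀ k, 1 ≤ lam k
  /-- the parameter is not constant -/
  nc : ∀ z : Qb, ∀ᶠ k in (U : Filter Q), t k ≠ z
  upper : ∃ B : ℝ, ∀ᶠ k in (U : Filter Q), ∀ ν, hcJ (P k ν) ≤ B * lam k
  indep : ∀ m : N → ℤ, m ≠ 0 → ∀ᶠ k in (U : Filter Q), cb (P k) m ≠ 0

namespace BlkF

variable {N : Type} [Fintype N] {Q : Type} {U : Ultrafilter Q}

/-- approximate relations -/
def Rel (s : BlkF N U) (w : N → ℝ) : Prop :=
  Tendsto (fun k => QJ (s.P k) w / s.lam k) U (𝓝 0)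

/-- the parameter as an element of the ultrapower -/
noncomputable abbrev tU (s : BlkF N U) : LL U := ((s.t : Q → Qb) : LL U)

/-- the coordinates of the points -/
def crdU (s : BlkF N U) : Set (LL U) :=
  {z | ∃ ν, z = ((fun k => lx (s.P k ν) : Q → Qb) : LL U) ∨
    z = ((fun k => ly (s.P k ν) : Q → Qb) : LL U)}

end BlkF

/-- CORE IV (vertical): `h(t) = o(lam)`. -/
def CoreIV : Prop :=
  ∀ (N : Type) [Fintype N] [Nonempty N] (Q : Type) (U : Ultrafilter Q) (s : BlkF N U),
    Tendsto s.lam U atTop → Tendsto (fun k => hQ (s.t k) / s.lam k) U (𝓝 0) →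
    (∀ m : N → ℤ, m ≠ 0 → ∃ c > (0 : ℝ), ∀ᶠ k in (U : Filter Q), c * s.lam k ≤ hcJ (cb (s.P k) m)) →
    ∀ W : Submodule ℝ (N → ℝ), (∀ w ∈ W, s.Rel w) → Fintype.card N ≤ finrank ℝ W + 1 →
      finrank ℝ W < trd (FHt U s.lam) s.crdU

/-- CORE IU: `h(t)` is of order `lam`; `N` may be empty. -/
def CoreIU : Prop :=
  ∀ (N : Type) [Fintype N] (Q : Type) (U : Ultrafilter Q) (s : BlkF N U),
    Tendsto s.lam U atTop → (∃ B : ℝ, ∀ᶠ k in (U : Filter Q), hQ (s.t k) ≤ B * s.lam k) →
    (∃ B : ℝ, ∀ᶠ k in (U : Filter Q), s.lam k ≤ B * hQ (s.t k)) →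
    ∀ W : Submodule ℝ (N → ℝ), (∀ w ∈ W, s.Rel w) → Fintype.card N ≤ finrank ℝ W + 1 →
      finrank ℝ W < trd (FHt U s.lam) (s.crdU ∪ {s.tU})

/-- CORE II: `h(t)` is bounded, the scale is `1`. -/
def CoreII : Prop :=
  ∀ (N : Type) [Fintype N] (Q : Type) (U : Ultrafilter Q) (s : BlkF N U),
    (∀ k, s.lam k = 1) → (∃ B : ℝ, ∀ᶠ k in (U : Filter Q), hQ (s.t k) ≤ B) →
    ∀ W : Submodule ℝ (N → ℝ), (∀ w ∈ W, s.Rel w) → Fintype.card N ≤ finrank ℝ W + 1 →
      finrank ℝ W ≤ trd (FCst U) (s.crdU ∪ {s.tU})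

/-- THE COMPARISON for points with at least `|N| - 1` relations.  The second bound is for
`h(t) → ∞`. -/
def ComparisonT3 : Prop :=
  ∀ (N Q : Type) [Fintype N] (U : Ultrafilter Q) (p : PreF N Q) (d : ℕ), p.ALG U d → p.NC U →
    (∀ᶠ k in (U : Filter Q),
      Fintype.card N ≤ finrank ℝ (rsp (p.rl k : Set (N → ℤ))) + 1) →
    (∀ᶠ k in (U : Filter Q), finrank ℝ (rsp (p.rl k : Set (N → ℤ))) ≤
      d + finrank ℝ (rsp (p.er U : Set (N → ℤ)))) ∧
    (Tendsto (fun k => hQ (p.t k)) U atTop →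
      ∀ᶠ k in (U : Filter Q), finrank ℝ (rsp (p.rl k : Set (N → ℤ))) + 1 ≤
        d + finrank ℝ (rsp (p.er U : Set (N → ℤ))))

/-! ### the modules of the chain -/

/-- the family of the combinations `m_i` -/
noncomputable def PreF.comb {N Q ι : Type} [Fintype N] [Fintype ι] (p : PreF N Q)
    (b : ι → N → ℤ) : PreF ι Q where
  t := p.t
  t0 := p.t0
  t1 := p.t1
  P := fun k i => cb (p.P k) (b i)

/-- SYSF: growth classes.  `H(m)_k := √(hcJ (cb (p.P k) m) / lam0 k)` with `lam0 = 1` if `h(t)` is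
bounded along `U`, and `lam0 = max 1 (hQ (t k))` otherwise (then `lam0 → ∞` along `U`).  Apply
`growthO` (ZPE.A.GRO, `O = ℤ`, `M = N → ℤ`), with `lam j k := lam0 k * (lam' j k) ^ 2`.  The
function `tau → ∞`: `Qb` is countable, `tau k := encode (t k)`, `hnc`. -/
def St_SYSF : Prop :=
  ∀ (N Q : Type) [Fintype N] (U : Ultrafilter Q) (p : PreF N Q), p.NC U →
    (∀ m : N → ℤ, m ≠ 0 → ∀ᶠ k in (U : Filter Q), cb (p.P k) m ≠ 0) →
    ∃ (ι : Type) (_ : Fintype ι) (b : ι → N → ℤ) (s : SysF ι U), LinearIndependent ℤ b ∧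
      Fintype.card ι = Fintype.card N ∧ s.toPreF = p.comb b

/-- RELF: exact relations give approximate relations (port of ZPE.A.PK2E without constants: the
rescaled real spans have frames with a limit, `CPT`; `QJ` is zero on the real span of exact
relations; the limit of the frames consists of approximate relations by `upper`). -/
def St_RELF : Prop :=
  ∀ (N Q : Type) [Fintype N] (U : Ultrafilter Q) (s : SysF N U) (r : ℕ)
    (b : Q → Fin r → N → ℤ), (∀ᶠ k in (U : Filter Q), LinearIndependent ℤ (b k)) →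
    (∀ᶠ k in (U : Filter Q), ∀ i, cb (s.P k) (b k i) = 0) →
    ∃ W : Submodule ℝ (N → ℝ), finrank ℝ W = r ∧ ∀ w ∈ W, s.Rel w

/-- ALGF: the algebraic condition for combinations (port of ZPE.A.ALGT): the coordinates of the
combinations are in the relative algebraic closure of the field generated by `FCst U` and `d` of the
elements `t`, `x_ν`. -/
def St_ALGF : Prop :=
  ∀ (N Q ι : Type) [Fintype N] [Fintype ι] (U : Ultrafilter Q) (p : PreF N Q) (d : ℕ)
    (b : ι → N → ℤ), p.ALG U d → (p.comb b).ALG U d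

/-- the coordinates of the points of the block `j` -/
def SysF.crdB {N : Type} [Fintype N] {Q : Type} {U : Ultrafilter Q} (s : SysF N U) (j : ℕ) :
    Set (LL U) :=
  {z | ∃ ν, s.blk ν = j ∧ (z = ((fun k => lx (s.P k ν) : Q → Qb) : LL U) ∨
    z = ((fun k => ly (s.P k ν) : Q → Qb) : LL U))}

/-- FHF: `FHt U lam` is a subfield for `1 ≤ lam`, `lam → ∞`; the constants are in it; the parameter
and the coordinates of the points of the blocks before `j` are in it, `lam = s.lam j`. -/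
def St_FHF : Prop :=
  (∀ (Q : Type) (U : Ultrafilter Q) (lam : Q → ℝ), Tendsto lam U atTop →
    ∃ F : Subfield (LL U), (F : Set (LL U)) = FHt U lam) ∧
  (∀ (Q : Type) (U : Ultrafilter Q) (lam : Q → ℝ), Tendsto lam U atTop → FCst U ⊆ FHt U lam) ∧
  ∀ (N Q : Type) [Fintype N] (U : Ultrafilter Q) (s : SysF N U) (j : ℕ), 0 < j →
    s.tU ∈ FHt U (s.lam j) ∧ ∀ i < j, s.crdB i ⊆ FHt U (s.lam j)

/-- TTF: the sum of the transcendence degrees of the blocks. -/
def St_TTF : Prop :=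
  ∀ (N Q : Type) [Fintype N] (U : Ultrafilter Q) (s : SysF N U) (d : ℕ), s.toPreF.ALG U d →
    trd (FCst U) (s.crdB 0 ∪ {s.tU}) +
      ∑ j ∈ (Finset.univ.image s.blk).erase 0, trd (FHt U (s.lam j)) (s.crdB j) ≤ d

/-- extension by zero from a block -/
noncomputable def exz {N : Type} (B : N → Prop) (w : {ν // B ν} → ℝ) : N → ℝ := by
  classical
  exact fun ν => if h : B ν then w ⟨ν, h⟩ else 0

/-- LINB: linear algebra of the blocks: `W_j` is the part of `W` in the block `j`. -/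
def St_LINB : Prop :=
  ∀ (N : Type) [Fintype N] (blk : N → ℕ) (W : Submodule ℝ (N → ℝ)),
    Fintype.card N ≤ finrank ℝ W + 1 →
    ∃ V : ∀ j : ℕ, Submodule ℝ ({ν // blk ν = j} → ℝ),
      (∀ j, ∀ w ∈ V j, exz (fun ν => blk ν = j) w ∈ W) ∧
      (∀ j, Fintype.card {ν // blk ν = j} ≤ finrank ℝ (V j) + 1) ∧
      finrank ℝ W ≤ finrank ℝ (V 0) +
        ∑ j ∈ (Finset.univ.image blk).erase 0, Fintype.card {ν // blk ν = j}

/-- BLKF: the blocks of a system as inputs of the cores. -/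
def St_BLKF : Prop :=
  ∀ (N Q : Type) [Fintype N] (U : Ultrafilter Q) (s : SysF N U) (j : ℕ),
    ∃ c : BlkF {ν // s.blk ν = j} U, c.lam = s.lam j ∧
      c.toPreF = ⟨s.t, s.t0, s.t1, fun k ν => s.P k ν.1⟩ ∧
      c.crdU = s.crdB j ∧ c.tU = s.tU ∧
      (∀ w, s.Rel (exz (fun ν => s.blk ν = j) w) → c.Rel w) ∧
      (0 < j → ∀ m : {ν // s.blk ν = j} → ℤ, m ≠ 0 →
        ∃ a > (0 : ℝ), ∀ᶠ k in (U : Filter Q), a * c.lam k ≤ hcJ (cb (c.P k) m))

/-- RANKF: `r` more relations at `k` than eventual relations give `r` independent relations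
between the points of a family `p.comb b` with `b` independent modulo the eventual relations. -/
def St_RANKF : Prop :=
  ∀ (N Q : Type) [Fintype N] (U : Ultrafilter Q) (p : PreF N Q),
    ∃ (n : ℕ) (μ : Fin n → N → ℤ),
      n + finrank ℝ (rsp (p.er U : Set (N → ℤ))) = Fintype.card N ∧
      (∀ m : Fin n → ℤ, m ≠ 0 → ∀ᶠ k in (U : Filter Q), cb ((p.comb μ).P k) m ≠ 0) ∧
      ∀ (ι : Type) [Fintype ι] (b : ι → Fin n → ℤ), LinearIndependent ℤ b → Fintype.card ι = n →
        ∀ᶠ k in (U : Filter Q), ∀ r : ℕ,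
          r + finrank ℝ (rsp (p.er U : Set (N → ℤ))) ≤
            finrank ℝ (rsp (p.rl k : Set (N → ℤ))) →
          ∃ c : Fin r → ι → ℤ, LinearIndependent ℤ c ∧
            ∀ i, cb (((p.comb μ).comb b).P k) (c i) = 0

end Pool.Agent.ZR
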